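import Pool.Agent.H838.CFMdConj

/-!
# Murre's conjecture (D) for Chow-Kunneth decompositions with coefficients in a field

`𝒱` is a class of smooth projective geometrically irreducible varieties over the field `k` closed
under products (for the problem: all of them over `ℂ`), `C` the Chow groups with rational
coefficients (in the form of their formal properties, `IsChowProj`), and `H` a Weil cohomology theory
(for the problem: singular cohomology). `F` is a field of characteristic zero, `ChF F C` the Chow
groups with coefficients in `F`, and `CKF F X H p` says that `p` is a Chow-Kunneth decomposition of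
`X` with coefficients in `F`; `pw X n` is the power `X × ⋯ × X` with `n + 1` factors. (D) in
codimension `i` for a decomposition says that `F^1` of the group of cycles of codimension `i` is the
group of homologically trivial cycles (`DOne` for a rational decomposition, `DOneF` for one with
coefficients in `F`).

1. `F` a number field of degree `n + 1`: every Chow-Kunneth decomposition `p` of `X` with coefficients
   in `F` gives a rational Chow-Kunneth decomposition `P` of the power with `n + 1` factors such that
   (D) in codimension `i` for `P` implies (D) in codimension `i` for `p`.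
2. `F` arbitrary: (D) in codimension `i` for the rational decompositions of all powers of `X` implies
   (D) in codimension `i` for the decompositions of `X` with coefficients in `F`, and the latter
   contains (D) in codimension `i` for the rational decompositions of `X`. Hence (D) in codimension
   `i` for all varieties does not depend on the coefficients.
3. If (D) in codimension `dim X` holds for the rational decompositions of `X × X`, and `π` is a
   rational Chow-Kunneth decomposition of `X`, then every Chow-Kunneth decomposition `p` of `X` with
   coefficients in `F` is conjugate to `π` by a unit congruent to the diagonal modulo homologically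
   trivial correspondences, the filtration of `F ⊗ CH^i(X)` attached to `p` is spanned by the
   filtration of `CH^i(X)` attached to `π`, and (D) in codimension `i` holds for `p` if and only if it
   holds for `π`.
4. If (D) holds for the rational decompositions of `Z × Z` for all powers `Z` of `X` (if `F` is a
   number field of degree `n + 1`: for the power with `n + 1` factors), then `X` has a Chow-Kunneth
   decomposition with coefficients in `F` if and only if it has a rational one.
-/

set_option autoImplicit false

universe u v w t

namespace Pool.Agent.Results.MP_583472_ag.DecompositionsWithCoefficients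

open Pool.Agent.H914 Pool.Agent.H914.VarClass Pool.Agent.H914.VarClass.Obj Pool.Agent.W492.BB
  Pool.Agent.W550.Corr Pool.Agent.TH133 Pool.Agent.H838.CF

theorem result {k : Type u} [Field k] {𝒱 : VarClass k} (C : TheoryData.{u, v, 0} 𝒱 ℚ)
    [IsChowProj C] {K : Type w} [Field K] (H : WeilTheoryData.{u, v, w} C K) [IsWeilProj H]
    (F : Type t) [Field F] [Algebra ℚ F] :
    (∀ (X : 𝒱.Obj) (n : ℕ), Module.finrank ℚ F = n + 1 → ∀ p, CKF F X H p →
      ∃ P, IsCK H (pw X n) P ∧ ∀ i : ℕ, DOne H P i → DOneF F H p i) ∧
    (∀ (X : 𝒱.Obj) (i : ℕ), ((∀ n, DAll H (pw X n) i) → DAllF F H X i) ∧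
      (DAllF F H X i → DAll H X i)) ∧
    (∀ i : ℕ, (∀ Y : 𝒱.Obj, DAll H Y i) ↔ ∀ Y : 𝒱.Obj, DAllF F H Y i) ∧
    (∀ X : 𝒱.Obj, DAll H (X.prod X) X.dim → ∀ π, IsCK H X π → ∀ p, CKF F X H p →
      ConjF F H X p π ∧ (∀ i s : ℕ, stepF F p i s = spanF F (ckFil C π i s)) ∧
        ∀ i : ℕ, DOneF F H p i ↔ DOne H π i) ∧
    (∀ X : 𝒱.Obj,
      (∀ n, Module.finrank ℚ F = n + 1 → (∀ i, DAll H ((pw X n).prod (pw X n)) i) →
        ((∃ p, CKF F X H p) ↔ ∃ π, IsCK H X π)) ∧
      ((∀ n i, DAll H ((pw X n).prod (pw X n)) i) →
        ((∃ p, CKF F X H p) ↔ ∃ π, IsCK H X π))) := by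
  have hback : ∀ X : 𝒱.Obj, (∃ π, IsCK H X π) → ∃ p, IsCKF F H X p := fun X ⟨π, hπ⟩ =>
    ⟨_, isCKF_extCK F hπ⟩
  refine ⟨fun X n hn p hp => d_one hn hp, fun X i => ⟨dAllF_gen F, dAll_of_dAllF F⟩,
    fun i => ⟨fun h Y => dAllF_gen F fun n => h _, fun h Y => dAll_of_dAllF F (h Y)⟩,
    fun X h π hπ p hp => ?_, fun X => ⟨fun n hn h => ?_, fun h => ?_⟩⟩
  · have hs := strictly_of_d h
    exact ⟨conjF_of hπ hs hp, fun i s => step_of_strict hπ hs hp i s,
      fun i => dOneF_iff_dOne hπ (step_of_strict hπ hs hp i 1)⟩
  · have : FiniteDimensional ℚ F := Module.finite_of_finrank_pos (by omega)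
    rw [exists_conv]
    exact ⟨fun ⟨p, hp⟩ => exists_CK_nf hn (b0_of_d h) hp, hback X⟩
  · rw [exists_conv]
    exact ⟨fun ⟨p, hp⟩ => exists_CK_gen (fun n => b0_of_d (h n)) hp, hback X⟩

end Pool.Agent.Results.MP_583472_ag.DecompositionsWithCoefficients
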