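import Pool.Agent.H836.SNMain

/-!
# Murre's conjecture (D) and correspondences with simple spectrum

Let `M = (X, ω)` be a motive which is finite-dimensional in the sense of Kimura, for instance one of
the motives `h^q(X) = (X, π^q)` of a Chow–Künneth decomposition of a variety `X` which is dominated
by a product of curves. The homologically trivial endomorphisms of `M = h^q(X)` (of degree 0) are
the homologically trivial cycles in the Künneth component `CH^d(h^(2d-q)(X) ⊗ h^q(X))` of
`CH^d(X × X)`; by Murre's conjecture (D) for `X × X` they vanish. It was known that they form a
nilpotent ideal (Kimura, André–Kahn, O'Sullivan); the known bound for the index of nilpotency is at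
least quadratic in the dimension `b` of `H(M)` (theorems of Nagata–Higman, Razmyslov, Kuzmin).

**Theorem.** Let `g` be an endomorphism of `M` and `P` the characteristic polynomial of `g` on
`H(M)`.

1. If all roots of `P` have multiplicity at most `e`, then `f^e = 0` for all homologically trivial
   endomorphisms `f` of `M` which commute with `g`. If `P` has simple roots, then the conjecture (D)
   is true for all cycles `f` which are invariant under `g` in this sense.
2. If `P` has simple roots, then the product of any `b` homologically trivial endomorphisms of `M`
   is zero, whether they commute with `g` or not.
3. Let `c` be a rational number which is a simple root of `P`, and suppose that some cycle `x` of `M`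
   with `g_* x = c x` is not numerically trivial. Then the conjecture (D) is true for the eigenvalue
   `c`: every homologically trivial cycle `a` of `M` with `g_* a = c a` vanishes. (It is sufficient
   that the class of `x` in `H(M)` is an eigenvector: replace `x` by `Q(g)_* x`, `P = (T - c) Q`.)

The condition that `P` has simple roots is satisfied for all `h^q` of an abelian variety with complex
multiplication, of the Fermat hypersurfaces (some linear combination `g` of the automorphisms), of
K3 surfaces with complex multiplication which are dominated by products of curves, … The theorem is
stated for endomorphisms of any degree.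

The ideas. The exact Cayley–Hamilton theorem holds for `g + s f` with `s ∈ ℚ`, and these
endomorphisms have the same characteristic polynomial `P`. 1 and 3 follow from the coefficients of
the powers of `s`. For 2, let `e_1, …, e_b` be the idempotents of `g`, with complex coefficients; the
coefficient of `s` shows that `e_i f e_i = 0` for all homologically trivial `f`. In a product
`f_1 ⋯ f_b` one inserts the idempotents in all the `b + 1` places. In every term some idempotent
occurs twice, and the part between the two is of the form `e_i f e_i`.
-/

open CategoryTheory CategoryTheory.Limits AlgebraicGeometry
open Pool.Agent.H914 Pool.Agent.H914.VarClass Pool.Agent.H914.VarClass.Obj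
open Pool.Agent.R903 Pool.Agent.H836 Pool.Agent.H836.SN

universe u v w

namespace Pool.Agent.Results.MP_583472_ag.SimpleSpectrum

/-- Let `(X, ω)` be a Kimura finite-dimensional motive, `g` an endomorphism of it and `P` the
characteristic polynomial of `g` on the cohomology of `(X, ω)`, the image of `ω`.
* `f^e = 0` for homologically trivial endomorphisms `f` which commute with `g`, if the roots of `P`
  have multiplicity at most `e`.
* If `P` has simple roots, then the product of any `b = dim H(X, ω)` homologically trivial
  endomorphisms is zero.
* Homologically trivial cycles `a` of `(X, ω)` with `g_* a = c a` vanish, if `c` is a simple root of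
  `P` and there is a cycle `x` of `(X, ω)` with `g_* x = c x` which is not numerically trivial. -/
theorem result {k : Type u} [Field k] {𝒱 : VarClass k} {C : ChowTheory.{u, v} 𝒱}
    (hP : C.Polarized) (W : WeilTheory.{u, v, w} C) {X : 𝒱.Obj} {ω : C.CH (X.prod X)}
    (hX : C.KimuraFinite ω) {g : C.CH (X.prod X)} (hg : IsEndo C ω g) {P : Polynomial ℚ}
    (hPg : IsCharpolyOn P (W.act g) (W.act ω)) :
    (∀ e, MultLE P e → CommutantNil W ω g e) ∧
    (P.Separable → ProductsVanish W ω (dimImage (W.act ω))) ∧
    ∀ c, IsSimpleRoot P c → EigenInjective W ω g c :=
  ⟨fun _ he _ hf hc => commuting hP hX hg hPg he hf hc,
    fun hs _ hl hn => strongNil hP hX hg hPg hs hl hn,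
    fun _ hc => eigenCycle hP hX hg hPg hc⟩

end Pool.Agent.Results.MP_583472_ag.SimpleSpectrum
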